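import Pool.Agent.V7H10.HP7

/-!
# `e`, `1 / π`, Euler's constant and the periods of the curves with heights near values of additive functions

Polynomials with algebraic coefficients in the periods of the algebraic forms on a variety over the algebraic numbers
are periods in the sense of Kontsevich and Zagier. Is one of the numbers `e`, `1 / π`, `γ` of this kind? Let `F` be a
family with symplectic monodromy over an open subset `U` of the line, for instance the products of the Legendre curve
with parameter `x` and other curves whose periods at `x` are hypergeometric functions.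

Let `Φ = f_1 ∘ ⋯ ∘ f_r` be a composition of functions dominated by the largest prime factor, such as the sum of the prime
factors with multiplicity, the largest prime factor, or the least `j` with `m ∣ j!`, let `G` be a function with steps bounded
below by a positive constant and growth at most `v ^ b`, for example `a v ^ b`, and let `κ < 1`. We show: there is ONE set
`R` of natural numbers with at most `N exp (- (log N) ^ c)` elements up to `N`, for every `c < 1 / (r + 1)` and all large
`N`, such that for ALL number fields `K` in `ℂ` and all `k` and all large `m` outside `R`: for EVERY member of the family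
over a point `x` of `K` in `InnerM F.U k` with a height within `Φ(m) ^ κ` of `G(Φ(m))` none of the numbers `e`, `1 / π`, `γ` is a value at the periods at `x` of a
polynomial with coefficients of height at most `T ^ k` (`T` the height of `x`) and degree at most `k`, and for `e` and `γ` in
another way than on the whole torsor of the period matrices. The same is true for the numbers `z ≠ 0` of any countable set
`Z`, for example of the field generated by `e`, `π` and `γ`.

A value of an additive function is taken very often, and so the statement does not follow from the small number of the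
exceptional points alone.

Proof. The elements of height at most `T` in the compact set which are bad at their own height are `O(T ^ ε)` in number
for every `ε > 0` (`Pool.Agent.N603.DB.count`); for one number field, one `k` and one number the tool `Pool.Agent.N375.AV`
(helper375) gives the exceptional set; a diagonal argument (`Pool.Agent.V7H10.Diag`) gives one exceptional set for all.
-/

set_option autoImplicit false

open NumberField

namespace Pool.Agent.Results.MP_725b61_nt.AdditiveHeightsH10

open Pool.Agent Pool.Agent.Y890.MV Pool.Agent.Y890.SM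
open Pool.Agent.N733.TG (Expanding expanding_pow)
open Pool.Agent.N375.AV (PD comp pd_sopfr pd_largest pd_kempner)
open Pool.Agent.V7H10.Diag (cnt)
open Pool.Agent.V7H10.HP7 (Free3 FreeZ freeZ_of_ok free3_of_ok countable_Zp e_mem gamma_mem)

/-- **`e`, `1 / π`, `γ` and periods of curves with heights near values of additive functions.**
(1) Let `Z` be a countable set of complex numbers, `F` a family with symplectic monodromy with one parameter, `f_1, …, f_r`
functions dominated by the largest prime factor, `Φ = f_1 ∘ ⋯ ∘ f_r`, let `G` have steps `≥ a > 0` and growth at most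
`v ^ b`, `0 ≤ κ < 1`. There is a set `R` of natural numbers with at most `N exp (- (log N) ^ c)` elements up to `N`, for all
`0 < c < 1 / (r + 1)` and all large `N`, such that for all number fields `K` in `ℂ`, all `k ≥ [K : ℚ]` and all large `m ∉ R`:
for EVERY `x` in `K` with `|height x - G (Φ m)| ≤ (Φ m) ^ κ` in `InnerM F.U k`:
`1 / π` is not a value, and `e` and `γ` are not nontrivial values, for the degree `k` and the bound
`(height x) ^ k` for the coefficients. For each number `z ≠ 0` of `Z` it is not a nontrivial value if `m` is large in terms of `z`.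
(2) For every finite set `A` of rational numbers `0 < μ ≤ 1/2` the matrices
`(W (x), W'(x); W (1 - x), -W'(1 - x))`, `W (x) = ∫ t^(-μ) (1 - t)^(μ - 1) (1 - x t)^(-μ) dt` over `[0, 1]`, for all
`μ ∈ A` are such a family over the plane without `(-∞, 0]` and `[1, ∞)`.
(3) The sum of the prime factors, the largest prime factor and the least `k` with `m ∣ k!` are examples of the `f_i`, and the
functions `a v ^ b` with `a > 0`, `b ≥ 1` are examples of `G`. -/
theorem result :
    (∀ (Z : Set ℂ), Z.Countable → ∀ (X : Type) [Fintype X] [DecidableEq X] [Nonempty X], Fintype.card X = 1 →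
      ∀ (ι : Type) [Fintype ι] [DecidableEq ι] (n : ι → ℕ) (F : SympFam X n) (fs : List (ℕ → ℕ)), (∀ f ∈ fs, PD f) →
      ∀ (G : ℕ → ℝ) (b : ℝ), Expanding G b → ∀ κ : ℝ, 0 ≤ κ → κ < 1 →
      ∃ R : Set ℕ, (∀ c : ℝ, 0 < c → c < (1 : ℝ) / (fs.length + 1) → ∃ N₀ : ℕ, ∀ N : ℕ, N₀ ≤ N →
          (cnt R N : ℝ) ≤ N * Real.exp (-(Real.log N ^ c))) ∧
        ∀ (K : IntermediateField ℚ ℂ) [NumberField K] (k : ℕ), Module.finrank ℚ K ≤ k →
          (∃ m₀ : ℕ, ∀ m : ℕ, m₀ ≤ m → m ∉ R → Free3 F K k (G (comp fs m)) ((comp fs m : ℝ) ^ κ)) ∧
          ∀ z ∈ Z, z ≠ 0 → ∃ m₀ : ℕ, ∀ m : ℕ, m₀ ≤ m → m ∉ R →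
            FreeZ F K k z (G (comp fs m)) ((comp fs m : ℝ) ^ κ)) ∧
    (∀ A : Finset ℚ, (∀ μ ∈ A, 0 < μ ∧ μ ≤ 1 / 2) →
      ∃ F : SympFam (Fin 1) (fun _ : Fin 1 × A => 2),
        F.U = {x | x 0 ∈ Complex.slitPlane ∧ 1 - x 0 ∈ Complex.slitPlane} ∧
        (∀ q x, F.P q x = N156.HG.PH ((q.2.1 : ℚ) : ℝ) (x 0))) ∧
    PD (fun m => m.primeFactorsList.sum) ∧ PD (fun m => m.primeFactors.sup id) ∧
    PD (fun m => sInf {k : ℕ | m ∣ k.factorial}) ∧
    ∀ a b : ℝ, 0 < a → 1 ≤ b → Expanding (fun v => a * (v : ℝ) ^ b) b := by
  obtain ⟨-, h3, -, -⟩ := SimultaneousApproximations.result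
  refine ⟨fun Z hZ X _ _ _ hX ι _ _ n F fs hfs G b hG κ hκ hκ1 => ?_, fun A hA => ?_, pd_sopfr, pd_largest,
    pd_kempner, fun a b ha hb => expanding_pow ha hb⟩
  · obtain ⟨R, hR, h⟩ := Pool.Agent.V7H10.HP.addi F hX (countable_Zp hZ) fs hfs hG hκ hκ1
    refine ⟨R, hR, fun K _ k hk => ⟨?_, fun z hz hz0 => ?_⟩⟩
    · obtain ⟨m₁, h₁⟩ := h K k hk _ (e_mem Z)
      obtain ⟨m₂, h₂⟩ := h K k hk _ (gamma_mem Z)
      exact ⟨max m₁ m₂, fun m hm hmR => free3_of_ok (h₁ m ((le_max_left _ _).trans hm) hmR)
        (h₂ m ((le_max_right _ _).trans hm) hmR)⟩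
    · obtain ⟨m₀, hm₀⟩ := h K k hk z (Or.inl hz)
      exact ⟨m₀, fun m hm hmR => freeZ_of_ok hz0 (hm₀ m hm hmR)⟩
  · obtain ⟨F, e1, e2, _⟩ := h3 A hA
    exact ⟨F, e1, e2⟩

end Pool.Agent.Results.MP_725b61_nt.AdditiveHeightsH10
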