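import Pool.Agent.V7H10.HP7

/-!
# `e`, `1 / π`, Euler's constant and the periods of the curves with heights near multiples, powers and orbits of a real number

Polynomials with algebraic coefficients in the periods of the algebraic forms on a variety over the algebraic numbers
are periods in the sense of Kontsevich and Zagier. Is one of the numbers `e`, `1 / π`, `γ` of this kind? Let `F` be a
family with symplectic monodromy over an open subset `U` of the line, for instance the products of the Legendre curve
with parameter `x` and other curves whose periods at `x` are hypergeometric functions.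

Let `f_0, f_1, …` be a sequence of positive functions on `(a, ∞)` with nondecreasing `f_j(x) / x`, for example `v_j x`,
`x ^ (v_j)` with `v_j ≥ 1`, or the orbit of `x` under a map `g` with nondecreasing `g(x) / x > 1`, and with exponent of
convergence at most `τ` (the series of the `f_j(x) ^ (-t)` converge for `t > τ`; `τ = 0` for the orbits and powers), and let
`θ < 1`. We show: for all real `u > a` outside a set of Hausdorff dimension at most `τ / (1 - θ)` (of dimension ZERO for the
powers and the orbits), for ALL number fields `K` in `ℂ`, all `k`, all `c` and all large `j`: for EVERY member of the family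
over a point `x` of `K` in `InnerM F.U k` with a height within `c f_j(u) ^ θ` of `f_j(u)` none of the numbers `e`, `1 / π`, `γ` is a value at the periods at `x` of a
polynomial with coefficients of height at most `T ^ k` (`T` the height of `x`) and degree at most `k`, and for `e` and `γ` in
another way than on the whole torsor of the period matrices. The same is true for the numbers `z ≠ 0` of any countable set
`Z`, for example of the field generated by `e`, `π` and `γ`.

The sequence is in general very sparse, and so the statement does not follow from the small number of the exceptional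
points alone.

Proof. The elements of height at most `T` in the compact set which are bad at their own height are `O(T ^ ε)` in number
for every `ε > 0` (`Pool.Agent.N603.DB.count`); the tool is `Pool.Agent.R482.ST` (helper482); there are only countably many
number fields in `ℂ`.
-/

set_option autoImplicit false

open NumberField

namespace Pool.Agent.Results.MP_725b61_nt.StarshapedHeightsH10

open Pool.Agent Pool.Agent.Y890.MV Pool.Agent.Y890.SM
open Pool.Agent.R482.ST (Starshaped Conv ex_mul ex_pow ex_orbit)
open Pool.Agent.V7H10.HP7 (Free3 FreeZ freeZ_of_ok free3_of_ok countable_Zp e_mem gamma_mem)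

/-- **`e`, `1 / π`, `γ` and periods of curves with heights near multiples, powers and orbits of a real number.**
(1) Let `Z` be a countable set of complex numbers, `F` a family with symplectic monodromy with one parameter, `f` a
starshaped sequence on `(a, ∞)` with exponent of convergence at most `τ`, `θ < 1`. There is a set `E` of real numbers of
Hausdorff dimension at most `τ / (1 - θ)` such that for all `u > a` outside `E`, all number fields `K` in `ℂ`, all
`k ≥ [K : ℚ]`, all `c` and all large `j`: for EVERY `x` in `K` with `|height x - f_j u| ≤ c (f_j u) ^ θ` in `InnerM F.U k`: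
`1 / π` is not a value, and `e` and `γ` are not nontrivial values, for the degree `k` and the bound
`(height x) ^ k` for the coefficients. For each number `z ≠ 0` of `Z` it is not a nontrivial value if `j` is large in terms of `z`.
(2) For every finite set `A` of rational numbers `0 < μ ≤ 1/2` the matrices
`(W (x), W'(x); W (1 - x), -W'(1 - x))`, `W (x) = ∫ t^(-μ) (1 - t)^(μ - 1) (1 - x t)^(-μ) dt` over `[0, 1]`, for all
`μ ∈ A` are such a family over the plane without `(-∞, 0]` and `[1, ∞)`.
(3) Examples of starshaped sequences: multiples, powers, orbits. -/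
theorem result :
    (∀ (Z : Set ℂ), Z.Countable → ∀ (X : Type) [Fintype X] [DecidableEq X] [Nonempty X], Fintype.card X = 1 →
      ∀ (ι : Type) [Fintype ι] [DecidableEq ι] (n : ι → ℕ) (F : SympFam X n) (f : ℕ → ℝ → ℝ) (a τ θ : ℝ),
      Starshaped a f → 0 ≤ τ → Conv a f τ → θ < 1 →
      ∃ E : Set ℝ, dimH E ≤ ENNReal.ofReal (τ / (1 - θ)) ∧ ∀ u : ℝ, a < u → u ∉ E →
        ∀ (K : IntermediateField ℚ ℂ) [NumberField K] (k : ℕ), Module.finrank ℚ K ≤ k → ∀ c : ℝ,
          (∃ j₀ : ℕ, ∀ j : ℕ, j₀ ≤ j → Free3 F K k (f j u) (c * (f j u) ^ θ)) ∧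
          ∀ z ∈ Z, z ≠ 0 → ∃ j₀ : ℕ, ∀ j : ℕ, j₀ ≤ j → FreeZ F K k z (f j u) (c * (f j u) ^ θ)) ∧
    (∀ A : Finset ℚ, (∀ μ ∈ A, 0 < μ ∧ μ ≤ 1 / 2) →
      ∃ F : SympFam (Fin 1) (fun _ : Fin 1 × A => 2),
        F.U = {x | x 0 ∈ Complex.slitPlane ∧ 1 - x 0 ∈ Complex.slitPlane} ∧
        (∀ q x, F.P q x = N156.HG.PH ((q.2.1 : ℚ) : ℝ) (x 0))) ∧
    (∀ (v : ℕ → ℝ) (τ : ℝ), (∀ n, 0 < v n) → (∀ t : ℝ, τ < t → Summable (fun n : ℕ => (v n) ^ (-t))) →
      Starshaped 0 (fun n x => v n * x) ∧ Conv 0 (fun n x => v n * x) τ) ∧
    (∀ v : ℕ → ℝ, (∀ n, 1 ≤ v n) → (∀ t : ℝ, 0 < t → Summable fun n : ℕ => Real.exp (-(t * v n))) →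
      Starshaped 1 (fun n x => x ^ (v n)) ∧ Conv 1 (fun n x => x ^ (v n)) 0) ∧
    (∀ (a : ℝ) (g : ℝ → ℝ), 0 ≤ a → (∀ x y : ℝ, a < x → x ≤ y → g x / x ≤ g y / y) → (∀ x : ℝ, a < x → x < g x) →
      Starshaped a (fun n x => g^[n] x) ∧ Conv a (fun n x => g^[n] x) 0) := by
  obtain ⟨-, h3, -, -⟩ := SimultaneousApproximations.result
  refine ⟨fun Z hZ X _ _ _ hX ι _ _ n F f a τ θ hf hτ hv hθ => ?_, fun A hA => ?_, ex_mul, ex_pow, ex_orbit⟩
  · obtain ⟨E, hE, h⟩ := Pool.Agent.V7H10.HP.star F hX (countable_Zp hZ) hf hτ hv hθ
    refine ⟨E, hE, fun u hu huE K _ k hk c => ⟨?_, fun z hz hz0 => ?_⟩⟩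
    · obtain ⟨j₁, h₁⟩ := h u hu huE K k hk _ (e_mem Z) c
      obtain ⟨j₂, h₂⟩ := h u hu huE K k hk _ (gamma_mem Z) c
      exact ⟨max j₁ j₂, fun j hj => free3_of_ok (h₁ j ((le_max_left _ _).trans hj))
        (h₂ j ((le_max_right _ _).trans hj))⟩
    · obtain ⟨j₀, hj₀⟩ := h u hu huE K k hk z (Or.inl hz) c
      exact ⟨j₀, fun j hj => freeZ_of_ok hz0 (hj₀ j hj)⟩
  · obtain ⟨F, e1, e2, _⟩ := h3 A hA
    exact ⟨F, e1, e2⟩

end Pool.Agent.Results.MP_725b61_nt.StarshapedHeightsH10
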