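import Pool.Agent.V7H10.HP7

/-!
# `e`, `1 / π`, Euler's constant and the periods of the curves with heights near the orbits of Euler's function

Polynomials with algebraic coefficients in the periods of the algebraic forms on a variety over the algebraic numbers
are periods in the sense of Kontsevich and Zagier. Is one of the numbers `e`, `1 / π`, `γ` of this kind? Let `F` be a
family with symplectic monodromy over an open subset `U` of the line, for instance the products of the Legendre curve
with parameter `x` and other curves whose periods at `x` are hypergeometric functions.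

Let `φ_j` be the `j`-fold iterate of Euler's function, `f` a positive multiplicative function of at most polynomial growth,
with `f p ≤ M p` for the large primes and with different values at different large primes, for example `f m = m` or the sum
of the divisors, let `G` be a function with steps bounded below by a positive constant and growth at most `v ^ b`, for
example `a v ^ b`, and let `κ < 1`. We show: there are ONE set `M` of natural numbers of density one and a function `J`
tending to infinity such that for ALL number fields `K` in `ℂ` and all `k` and all large `m` in `M`, for all `j ≤ J(m)`: for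
EVERY member of the family over a point `x` of `K` in `InnerM F.U k` with a height within `f(φ_j(m)) ^ κ` of
`G(f(φ_j(m)))` none of the numbers `e`, `1 / π`, `γ` is a value at the periods at `x` of a
polynomial with coefficients of height at most `T ^ k` (`T` the height of `x`) and degree at most `k`, and for `e` and `γ` in
another way than on the whole torsor of the period matrices. The same is true for the numbers `z ≠ 0` of any countable set
`Z`, for example of the field generated by `e`, `π` and `γ`.

The values of the iterates of Euler's function form very thin sets, and a value can be taken very often; so the statement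
does not follow from the small number of the exceptional points alone.

Proof. The elements of height at most `T` in the compact set which are bad at their own height are `O(T ^ ε)` in number
for every `ε > 0` (`Pool.Agent.N603.DB.count`); for one number field, one `k`, one number and one `j` the tool
`Pool.Agent.N760.IT` (helper760) gives a set of density one; a diagonal argument (`Pool.Agent.V7H10.Diag`) gives one set and
the function `J` for all of them.
-/

set_option autoImplicit false

open NumberField

namespace Pool.Agent.Results.MP_725b61_nt.TotientOrbitHeightsH10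

open Pool.Agent Pool.Agent.Y890.MV Pool.Agent.Y890.SM
open Pool.Agent.N733.TG (LM Expanding lm_sigma expanding_pow)
open Pool.Agent.N760.IT (orb lm_id)
open Pool.Agent.N826.IT.Orb (AlmostAll)
open Pool.Agent.V7H10.HP7 (Free3 FreeZ freeZ_of_ok free3_of_ok countable_Zp e_mem gamma_mem)

/-- **`e`, `1 / π`, `γ` and periods of curves with heights near the orbits of Euler's function.**
(1) Let `Z` be a countable set of complex numbers, `F` a family with symplectic monodromy with one parameter, `f` with `LM`,
let `G` have steps `≥ a > 0` and growth at most `v ^ b`, `0 ≤ κ < 1`. There are a set `M` of natural numbers of density one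
and a function `J` tending to infinity such that for all number fields `K` in `ℂ`, all `k ≥ [K : ℚ]` and all large `m ∈ M`,
for all `j ≤ J m`: for EVERY `x` in `K` with `|height x - G (f (φ_j m))| ≤ (f (φ_j m)) ^ κ` in `InnerM F.U k`:
`1 / π` is not a value, and `e` and `γ` are not nontrivial values, for the degree `k` and the bound
`(height x) ^ k` for the coefficients. For each number `z ≠ 0` of `Z` it is not a nontrivial value if `m` is large in terms of `z`.
(2) For every finite set `A` of rational numbers `0 < μ ≤ 1/2` the matrices
`(W (x), W'(x); W (1 - x), -W'(1 - x))`, `W (x) = ∫ t^(-μ) (1 - t)^(μ - 1) (1 - x t)^(-μ) dt` over `[0, 1]`, for all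
`μ ∈ A` are such a family over the plane without `(-∞, 0]` and `[1, ∞)`.
(3) The identity and the sum of the divisors are examples of `f`, and the functions `a v ^ b` with `a > 0`, `b ≥ 1` are
examples of `G`. -/
theorem result :
    (∀ (Z : Set ℂ), Z.Countable → ∀ (X : Type) [Fintype X] [DecidableEq X] [Nonempty X], Fintype.card X = 1 →
      ∀ (ι : Type) [Fintype ι] [DecidableEq ι] (n : ι → ℕ) (F : SympFam X n) (f : ℕ → ℕ), LM f →
      ∀ (G : ℕ → ℝ) (b : ℝ), Expanding G b → ∀ κ : ℝ, 0 ≤ κ → κ < 1 →
      ∃ (M : Set ℕ) (J : ℕ → ℕ), AlmostAll (fun m => m ∈ M) ∧ Filter.Tendsto J Filter.atTop Filter.atTop ∧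
        ∀ (K : IntermediateField ℚ ℂ) [NumberField K] (k : ℕ), Module.finrank ℚ K ≤ k →
          (∃ m₀ : ℕ, ∀ m : ℕ, m₀ ≤ m → m ∈ M → ∀ j ≤ J m, Free3 F K k (G (orb f j m)) ((orb f j m : ℝ) ^ κ)) ∧
          ∀ z ∈ Z, z ≠ 0 → ∃ m₀ : ℕ, ∀ m : ℕ, m₀ ≤ m → m ∈ M → ∀ j ≤ J m,
            FreeZ F K k z (G (orb f j m)) ((orb f j m : ℝ) ^ κ)) ∧
    (∀ A : Finset ℚ, (∀ μ ∈ A, 0 < μ ∧ μ ≤ 1 / 2) →
      ∃ F : SympFam (Fin 1) (fun _ : Fin 1 × A => 2),
        F.U = {x | x 0 ∈ Complex.slitPlane ∧ 1 - x 0 ∈ Complex.slitPlane} ∧
        (∀ q x, F.P q x = N156.HG.PH ((q.2.1 : ℚ) : ℝ) (x 0))) ∧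
    LM (fun m => m) ∧ LM (fun m => ∑ d ∈ m.divisors, d) ∧
    ∀ a b : ℝ, 0 < a → 1 ≤ b → Expanding (fun v => a * (v : ℝ) ^ b) b := by
  obtain ⟨-, h3, -, -⟩ := SimultaneousApproximations.result
  refine ⟨fun Z hZ X _ _ _ hX ι _ _ n F f hf G b hG κ hκ hκ1 => ?_, fun A hA => ?_, lm_id, lm_sigma,
    fun a b ha hb => expanding_pow ha hb⟩
  · obtain ⟨M, J, hM, hJ, h⟩ := Pool.Agent.V7H10.HP.orbit F hX (countable_Zp hZ) hf hG hκ hκ1
    refine ⟨M, J, hM, hJ, fun K _ k hk => ⟨?_, fun z hz hz0 => ?_⟩⟩
    · obtain ⟨m₁, h₁⟩ := h K k hk _ (e_mem Z)
      obtain ⟨m₂, h₂⟩ := h K k hk _ (gamma_mem Z)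
      exact ⟨max m₁ m₂, fun m hm hmM j hj => free3_of_ok (h₁ m ((le_max_left _ _).trans hm) hmM j hj)
        (h₂ m ((le_max_right _ _).trans hm) hmM j hj)⟩
    · obtain ⟨m₀, hm₀⟩ := h K k hk z (Or.inl hz)
      exact ⟨m₀, fun m hm hmM j hj => freeZ_of_ok hz0 (hm₀ m hm hmM j hj)⟩
  · obtain ⟨F, e1, e2, _⟩ := h3 A hA
    exact ⟨F, e1, e2⟩

end Pool.Agent.Results.MP_725b61_nt.TotientOrbitHeightsH10
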